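import Pool.Agent.H894.BAB.Main
import Pool.Agent.H894.BAB.InstC
import Pool.Agent.H894.BAB.Two

/-!
# The statement of Borisov-Alexeev-Borisov over imperfect fields fails in every characteristic

For every prime number `p` and every `d ≥ 2` with `d ≥ p - 1`, the regular Fano varieties of
dimension `d` over fields of characteristic `p` are unbounded, and even birationally unbounded.
In particular regular del Pezzo surfaces over fields of characteristic 3 are unbounded, and in every
positive characteristic Borisov-Alexeev-Borisov over arbitrary fields fails in all large dimensions.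
(The earlier results `BABFails` and `EveryDimension` are the case `p = 2`.)

The definitions of epsilon-klt Fano varieties (over fields which are finitely generated over their
prime field) and of bounded classes are in `Pool/Graph/R_seed8/H187R3/Defs.lean`, birational
boundedness is defined in `Pool/Graph/R_seed8/Y939/BAB/GenBound.lean`, regular schemes in
`Pool/Agent/H894/BAB/Reg.lean`.

The examples for `p ≥ 3`, `d ≥ p - 1`: `ℓ = F_p(e_l, z_{j,i})`, where `0 ≤ l ≤ d`, `l ≠ 1`,
`0 ≤ j ≤ M`, `1 ≤ i ≤ p - 1`. On `ℓ[Y_0, ..., Y_d]` let `D` be the derivation which kills the `Y_l`,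
with `D e_l = Y_l` and
`D z_{j,i} = Y_i z_{j,i-1} - Y_0 ∑_{a + b = j - 1} z_{a,p-1} z_{b,i}`, `z_{j,0} = δ_{j,0}`.
Then `D ^ p = 0`: for the generating series `Z_i = ∑_j z_{j,i} T^j` the operator
`L = D + T Y_0 Z_{p-1}` satisfies `L Z_i = c_i Z_{i-1}` with constants `c_i` (indices modulo `p`,
`Z_0 = 1`), so `L ^ p` is the multiplication with `∏ c_i` on the `Z_i`, and
`L ^ p (x y) = D ^ p (x) y + x L ^ p (y)`. The only elements of `F_p[e_l, z_{j,i}]` killed by `D` are
the `p`-th powers, so the ring of constants of `D` in `ℓ` is `k = ℓ ^ p`. The variety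
`X = Proj (ker D) = ℙ^d_ℓ / D` over `k = H⁰(X, O_X)` is regular, because of `D (e_l / Y_l) = 1`, and
its canonical divisor is `-(d + 2 - p) H`, where `H` is the divisor of `Y_0`.
In a birationally bounded family the function fields can be generated over the ground fields by a
bounded number of elements, in the sense of Kaehler differentials, but the function field of `X`
needs at least `(M + 1) (p - 1) + 2 d - 1` elements.
-/

set_option autoImplicit false

namespace Pool.Agent.Results.MP_4d8271_ag.EveryCharacteristic

open AlgebraicGeometry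
open Pool.Agent.H187R3 Pool.Agent.H894.BAB
open Pool.Agent.Y939.BAB (IsBirationallyBounded)

theorem not_birBounded (p : ℕ) (hp : p.Prime) (d : ℕ) (hd : 2 ≤ d) (hpd : p ≤ d + 1) :
    ¬ IsBirationallyBounded (fun X => CharP Γ(X, ⊤) p ∧ IsRegularScheme X ∧
      ∀ ε : ℚ, ε < 1 → IsEpsKltFano ε d X) := by
  rcases Nat.lt_or_ge p 3 with h | h
  · have h2 : p = 2 := le_antisymm (by omega) hp.two_le
    subst h2
    exact Pool.Agent.H894.BABTwo.not_birBounded d hd
  · have : Fact p.Prime := ⟨hp⟩
    exact not_birBounded_of_family p d (fun N => ⟨Inst.dat p d N h hpd, rfl, rfl,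
      Inst.card_J p d N h hpd⟩) (by omega)

/-- Let `p` be a prime number and `d ≥ 2`, `d ≥ p - 1`. The class of the regular varieties of
dimension `d` over fields of characteristic `p` which are epsilon-klt Fano varieties for all `ε < 1`
is not birationally bounded. For every `ε < 1` the class of the regular epsilon-klt Fano varieties
of dimension `d` over fields of characteristic `p` is not bounded. -/
theorem result (p : ℕ) (hp : p.Prime) (d : ℕ) (hd : 2 ≤ d) (hpd : p ≤ d + 1) :
    ¬ IsBirationallyBounded (fun X => CharP Γ(X, ⊤) p ∧ IsRegularScheme X ∧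
      ∀ ε : ℚ, ε < 1 → IsEpsKltFano ε d X) ∧
    ∀ ε : ℚ, ε < 1 → ¬ IsBoundedClass (fun X => CharP Γ(X, ⊤) p ∧ IsRegularScheme X ∧
      IsEpsKltFano ε d X) := by
  refine ⟨not_birBounded p hp d hd hpd, fun ε hε hb => ?_⟩
  exact not_birBounded p hp d hd hpd (Pool.Agent.Y939.BAB.IsBirationallyBounded.mono
    (fun _ hX => ⟨hX.1, hX.2.1, hX.2.2 ε hε⟩)
    (Pool.Agent.Y939.BAB.IsBirationallyBounded.of_bounded hb))

end Pool.Agent.Results.MP_4d8271_ag.EveryCharacteristic
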